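import Pool.Agent.D0H96.UR.Stm

/-! Project UR: the exponential supersolution (`S_AL`), from the maximum principle, existence and the heat kernel. -/

set_option autoImplicit false

open Filter Topology MeasureTheory Set Real

namespace Pool.Agent.D0H65.UR

open Pool.Agent.D0H96.UR

/-- Solutions of `w' = w(k-1) + w(k+1)` of exponential growth. -/
structure Sol (w : ℝ → ℤ → ℝ) : Prop where
  c : ∀ k, ContinuousOn (fun t => w t k) (Ici 0)
  d : ∀ k t, 0 < t → HasDerivAt (fun t => w t k) (w t (k - 1) + w t (k + 1)) t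
  b : ∃ M : ℝ, 0 ≤ M ∧ ∀ k t, 0 ≤ t → |w t k| ≤ M * Real.exp (2 * t)

theorem Sol.add {w v : ℝ → ℤ → ℝ} (hw : Sol w) (hv : Sol v) : Sol fun t k => w t k + v t k where
  c k := (hw.c k).add (hv.c k)
  d k t ht := ((hw.d k t ht).add (hv.d k t ht)).congr_deriv (by ring)
  b := by
    obtain ⟨M, hM, h1⟩ := hw.b
    obtain ⟨N, hN, h2⟩ := hv.b
    refine ⟨M + N, by linarith, fun k t ht => ?_⟩
    have := abs_add_le (w t k) (v t k)
    have := h1 k t ht
    have := h2 k t ht
    rw [add_mul]
    linarith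

theorem Sol.smul {w : ℝ → ℤ → ℝ} (hw : Sol w) (c : ℝ) : Sol fun t k => c * w t k where
  c k := (hw.c k).const_mul c |>.congr (fun _ _ => rfl)
  d k t ht := ((hw.d k t ht).const_mul c).congr_deriv (by ring)
  b := by
    obtain ⟨M, hM, h1⟩ := hw.b
    refine ⟨|c| * M, by positivity, fun k t ht => ?_⟩
    rw [abs_mul, mul_assoc]
    exact mul_le_mul_of_nonneg_left (h1 k t ht) (abs_nonneg c)

theorem Sol.sub {w v : ℝ → ℤ → ℝ} (hw : Sol w) (hv : Sol v) : Sol fun t k => w t k - v t k := by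
  have := hw.add (hv.smul (-1))
  have e : (fun t k => w t k - v t k) = fun t k => w t k + -1 * v t k := by
    funext t k; ring
  rw [e]
  exact this

theorem Sol.shift {w : ℝ → ℤ → ℝ} (hw : Sol w) (j : ℤ) : Sol fun t k => w t (k + j) where
  c k := hw.c _
  d k t ht := (hw.d (k + j) t ht).congr_deriv (by
    have e1 : k + j - 1 = k - 1 + j := by ring
    have e2 : k + j + 1 = k + 1 + j := by ring
    rw [e1, e2])
  b := by
    obtain ⟨M, hM, h1⟩ := hw.b
    exact ⟨M, hM, fun k t ht => h1 _ t ht⟩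

theorem Sol.zero : Sol fun _ _ => 0 where
  c k := continuousOn_const
  d k t ht := (hasDerivAt_const t (0 : ℝ)).congr_deriv (by ring)
  b := ⟨0, le_rfl, fun k t ht => by simp⟩

theorem Sol.sum {ι : Type} (s : Finset ι) (w : ι → ℝ → ℤ → ℝ) (h : ∀ i, Sol (w i)) :
    Sol fun t k => ∑ i ∈ s, w i t k := by
  classical
  induction s using Finset.induction_on with
  | empty => simpa using Sol.zero
  | insert a s ha ih =>
    have := (h a).add ih
    have e : (fun t k => ∑ i ∈ insert a s, w i t k) = fun t k => w a t k + ∑ i ∈ s, w i t k := by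
      funext t k
      rw [Finset.sum_insert ha]
    rw [e]
    exact this

theorem Sol.exp : Sol fun t _ => Real.exp (2 * t) where
  c k := (Real.continuous_exp.comp (by fun_prop)).continuousOn
  d k t ht := by
    have h1 : HasDerivAt (fun t : ℝ => 2 * t) 2 t := by simpa using (hasDerivAt_id t).const_mul 2
    exact h1.exp.congr_deriv (by ring)
  b := ⟨1, zero_le_one, fun k t ht => by rw [one_mul, abs_of_pos (Real.exp_pos _)]⟩

/-- The system of the walk on the integers without killing. -/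
noncomputable def S0 : Sys ℤ ℤ := ⟨fun s x => x + s, fun _ => {1, -1}, fun _ => 0⟩

theorem rhs_S0 (w : ℤ → ℝ) (x : ℤ) : rhs S0 w x = w (x - 1) + w (x + 1) := by
  unfold rhs S0
  simp only [zero_mul, sub_zero]
  rw [Finset.sum_pair (by norm_num)]
  rw [add_comm, ← sub_eq_add_neg]

theorem grow_S0 : Grow S0 (fun _ => 2) 2 where
  b0 := by norm_num
  r0 x := le_rfl
  phi0 x := by norm_num
  card x := by
    show ((({1, -1} : Finset ℤ).card : ℕ) : ℝ) ≤ 2
    rw [Finset.card_pair (by norm_num)]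
    norm_num
  drift x := by
    show ∑ s ∈ ({1, -1} : Finset ℤ), (2 : ℝ) ≤ (0 + 2) * 2
    rw [Finset.sum_const, Finset.card_pair (by norm_num)]
    norm_num

/-- Comparison. -/
theorem Sol.le (hMP : S_MP) {w : ℝ → ℤ → ℝ} (hw : Sol w) (h0 : ∀ k, w 0 k ≤ 0) (k : ℤ) (t : ℝ) (ht : 0 ≤ t) :
    w t k ≤ 0 := by
  obtain ⟨M, hM, h1⟩ := hw.b
  refine hMP ℤ ℤ S0 (fun _ => 2) 2 Set.univ t (M * Real.exp (2 * t)) w grow_S0 (fun _ _ _ _ => mem_univ _) ht
    (fun x _ => (hw.c x).mono Icc_subset_Ici_self) (fun x _ s hs => ⟨_, hw.d x s hs.1, ?_⟩) (fun x _ s hs => ?_)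
    (fun x _ => h0 x) k (mem_univ _) t ⟨ht, le_rfl⟩
  · rw [rhs_S0]
  · refine (le_abs_self _).trans ((h1 x s hs.1).trans ?_)
    exact mul_le_mul_of_nonneg_left (Real.exp_le_exp.mpr (by linarith [hs.2])) hM

/-- The solution with initial value `δ_0`. -/
noncomputable def aa (t : ℝ) (k : ℤ) : ℝ := Real.exp (2 * t) * hk t k

theorem aa_sol (hHK : S_HK) : Sol aa := by
  obtain ⟨h1, h2, h3, h4, -⟩ := hHK
  have hd : ∀ k t, HasDerivAt (fun t => aa t k) (aa t (k - 1) + aa t (k + 1)) t := by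
    intro k t
    have e1 : HasDerivAt (fun t : ℝ => 2 * t) 2 t := by simpa using (hasDerivAt_id t).const_mul 2
    exact (e1.exp.mul (h1 t k)).congr_deriv (by unfold aa; ring)
  refine ⟨fun k => fun t _ => (hd k t).continuousAt.continuousWithinAt, fun k t _ => hd k t, 1, zero_le_one, ?_⟩
  intro k t ht
  unfold aa
  rw [abs_mul, abs_of_pos (Real.exp_pos _), one_mul]
  calc _ ≤ Real.exp (2 * t) * 1 := mul_le_mul_of_nonneg_left (h3 t k ht) (Real.exp_pos _).le
    _ = _ := mul_one _

theorem aa_zero (hHK : S_HK) (k : ℤ) : aa 0 k = if k = 0 then 1 else 0 := by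
  unfold aa
  rw [hHK.2.1 k]
  simp

theorem aa_nonneg (hMP : S_MP) (hHK : S_HK) (k : ℤ) (t : ℝ) (ht : 0 ≤ t) : 0 ≤ aa t k := by
  have h := ((aa_sol hHK).smul (-1)).le hMP (fun k => by
    rw [aa_zero hHK]
    split_ifs <;> norm_num) k t ht
  linarith

/-- The solution with initial value `2^{-|k|}`. -/
theorem exists_BB (hMP : S_MP) (hEX : S_EX) (hHK : S_HK) (C : ℝ) (hC : 0 < C)
    (hCb : ∀ t : ℝ, 0 ≤ t → ∀ k, hk t k ≤ C / √(1 + t)) :
    ∃ u : ℝ → ℤ → ℝ, Sol u ∧ (∀ k t, 0 ≤ t → aa t k ≤ u t k) ∧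
      (∀ k t, 0 ≤ t → u t (k - 1) ≤ 2 * u t k ∧ u t (k + 1) ≤ 2 * u t k) ∧
      (∀ k t, 0 ≤ t → u t k ≤ 4 * C * (Real.exp (2 * t) / √(1 + t))) := by
  have hF : ∀ x : ℤ, |((1 / 2 : ℝ) ^ x.natAbs)| ≤ 1 := fun x => by
    rw [abs_of_pos (by positivity)]
    exact pow_le_one₀ (by norm_num) (by norm_num)
  obtain ⟨u, hu0, huc, hud, hub⟩ := hEX ℤ ℤ S0 (fun _ => 2) 2 2 0 1 0 (fun x => (1 / 2 : ℝ) ^ x.natAbs)
    (fun _ _ => 0) grow_S0 (by norm_num) le_rfl zero_le_one le_rfl (fun x => by
      show ((({1, -1} : Finset ℤ).card : ℕ) : ℝ) ≤ 0 + 2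
      rw [Finset.card_pair (by norm_num)]
      norm_num) hF (fun _ => continuous_const) (fun _ _ _ => by simp)
  have hu : Sol u := by
    refine ⟨huc, fun k t ht => ?_, 1, zero_le_one, fun k t ht => ?_⟩
    · have := hud k t ht
      rw [rhs_S0, add_zero] at this
      exact this
    · have := hub k t ht
      simpa using this
  have hua : ∀ k t, 0 ≤ t → aa t k ≤ u t k := by
    intro k t ht
    have := ((aa_sol hHK).sub hu).le hMP (fun k => by
      rw [aa_zero hHK, hu0]
      split_ifs with h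
      · subst h; simp
      · have : (0 : ℝ) < (1 / 2) ^ k.natAbs := by positivity
        linarith) k t ht
    linarith
  have hnat : ∀ a b : ℕ, b ≤ a + 1 → (1 / 2 : ℝ) ^ a - 2 * (1 / 2) ^ b ≤ 0 := by
    intro a b h
    have : (1 / 2 : ℝ) ^ (a + 1) ≤ (1 / 2) ^ b := pow_le_pow_of_le_one (by norm_num) (by norm_num) h
    rw [pow_succ] at this
    linarith
  refine ⟨u, hu, hua, fun k t ht => ⟨?_, ?_⟩, fun k t ht => ?_⟩
  · have := ((hu.shift (-1)).sub (hu.smul 2)).le hMP (fun k => by
      rw [hu0, hu0]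
      exact hnat _ _ (by omega)) k t ht
    rw [← sub_eq_add_neg] at this
    linarith
  · have := ((hu.shift 1).sub (hu.smul 2)).le hMP (fun k => by
      rw [hu0, hu0]
      exact hnat _ _ (by omega)) k t ht
    linarith
  · have ha := aa_sol hHK
    have h0 : ∀ J : ℕ, u t k ≤ 4 * C * (Real.exp (2 * t) / √(1 + t)) + (1 / 2) ^ J * Real.exp (2 * t) := by
      intro J
      have hs : Sol fun t k => u t k - ((∑ j ∈ Finset.range J, (1 / 2 : ℝ) ^ j * (aa t (k + -(j : ℤ)) + aa t (k + j))) +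
          (1 / 2) ^ J * Real.exp (2 * t)) :=
        hu.sub ((Sol.sum (Finset.range J) (fun (j : ℕ) t k => (1 / 2 : ℝ) ^ j * (aa t (k + -(j : ℤ)) + aa t (k + j)))
          (fun j => ((ha.shift (-(j : ℤ))).add (ha.shift j)).smul _)).add (Sol.exp.smul _))
      have h1 := hs.le hMP (fun k => by
        rw [hu0, mul_zero, Real.exp_zero, mul_one]
        have hnn : ∀ j ∈ Finset.range J, (0 : ℝ) ≤ (1 / 2 : ℝ) ^ j * (aa 0 (k + -(j : ℤ)) + aa 0 (k + j)) := by
          intro j _
          have := aa_nonneg hMP hHK (k + -(j : ℤ)) 0 le_rfl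
          have := aa_nonneg hMP hHK (k + j) 0 le_rfl
          positivity
        rcases lt_or_ge k.natAbs J with h | h
        · have h2 := Finset.single_le_sum hnn (Finset.mem_range.mpr h)
          have h3 : 1 ≤ aa 0 (k + -(k.natAbs : ℤ)) + aa 0 (k + (k.natAbs : ℤ)) := by
            have e1 := aa_nonneg hMP hHK (k + -(k.natAbs : ℤ)) 0 le_rfl
            have e2 := aa_nonneg hMP hHK (k + (k.natAbs : ℤ)) 0 le_rfl
            rcases le_total 0 k with hk0 | hk0
            · have : k + -(k.natAbs : ℤ) = 0 := by omega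
              rw [this, aa_zero hHK, if_pos rfl]
              linarith
            · have : k + (k.natAbs : ℤ) = 0 := by omega
              rw [this, aa_zero hHK 0, if_pos rfl]
              linarith
          have h4 : (1 / 2 : ℝ) ^ k.natAbs * 1 ≤
              (1 / 2 : ℝ) ^ k.natAbs * (aa 0 (k + -(k.natAbs : ℤ)) + aa 0 (k + (k.natAbs : ℤ))) :=
            mul_le_mul_of_nonneg_left h3 (by positivity)
          have h5 : (0 : ℝ) < (1 / 2) ^ J := by positivity
          linarith
        · have h2 := Finset.sum_nonneg hnn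
          have h3 : (1 / 2 : ℝ) ^ k.natAbs ≤ (1 / 2) ^ J := pow_le_pow_of_le_one (by norm_num) (by norm_num) h
          linarith) k t ht
      have hE : ∀ k, aa t k ≤ C * (Real.exp (2 * t) / √(1 + t)) := by
        intro k
        unfold aa
        calc _ ≤ Real.exp (2 * t) * (C / √(1 + t)) := mul_le_mul_of_nonneg_left (hCb t ht k) (Real.exp_pos _).le
          _ = _ := by ring
      have h2 : (∑ j ∈ Finset.range J, (1 / 2 : ℝ) ^ j * (aa t (k + -(j : ℤ)) + aa t (k + j))) ≤
          ∑ j ∈ Finset.range J, (1 / 2 : ℝ) ^ j * (2 * (C * (Real.exp (2 * t) / √(1 + t)))) := by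
        apply Finset.sum_le_sum
        intro j _
        apply mul_le_mul_of_nonneg_left _ (by positivity)
        have := hE (k + -(j : ℤ))
        have := hE (k + j)
        linarith
      rw [← Finset.sum_mul] at h2
      have h3 := sum_geometric_two_le J
      have h4 : 0 ≤ 2 * (C * (Real.exp (2 * t) / √(1 + t))) := by positivity
      have h5 := mul_le_mul_of_nonneg_right h3 h4
      linarith
    have hlim : Tendsto (fun J : ℕ => 4 * C * (Real.exp (2 * t) / √(1 + t)) + (1 / 2 : ℝ) ^ J * Real.exp (2 * t)) atTop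
        (𝓝 (4 * C * (Real.exp (2 * t) / √(1 + t)) + 0 * Real.exp (2 * t))) :=
      tendsto_const_nhds.add ((tendsto_pow_atTop_nhds_zero_of_lt_one (by norm_num) (by norm_num)).mul_const _)
    have := ge_of_tendsto' hlim h0
    simpa using this

theorem g_mono (t T : ℝ) (ht : 0 ≤ t) (hT : t ≤ T) :
    Real.exp (2 * t) / √(1 + t) ≤ Real.exp (2 * T) / √(1 + T) := by
  have h1 : 0 < 1 + t := by linarith
  have h2 : 0 < 1 + T := by linarith
  rw [div_le_div_iff₀ (Real.sqrt_pos.mpr h1) (Real.sqrt_pos.mpr h2)]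
  have e1 : Real.exp (2 * T) = Real.exp (2 * t) * Real.exp (2 * (T - t)) := by
    rw [← Real.exp_add]; congr 1; ring
  rw [e1, mul_assoc]
  apply mul_le_mul_of_nonneg_left _ (Real.exp_pos _).le
  have h3 : √(1 + T) ≤ √(1 + t) * (1 + (T - t)) := by
    rw [Real.sqrt_le_left (by positivity), mul_pow, Real.sq_sqrt h1.le]
    nlinarith [mul_nonneg ht (sub_nonneg.mpr hT), mul_nonneg ht (sq_nonneg (T - t)), sq_nonneg (T - t), sub_nonneg.mpr hT]
  have h4 : 1 + (T - t) ≤ Real.exp (2 * (T - t)) := by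
    have := Real.add_one_le_exp (2 * (T - t))
    linarith
  have h5 := mul_le_mul_of_nonneg_left h4 (Real.sqrt_nonneg (1 + t))
  linarith

theorem t_AL (hMP : S_MP) (hEX : S_EX) (hHK : S_HK) : S_AL := by
  intro κ₀ hκ₀
  obtain ⟨C, hC, hCb'⟩ := hHK.2.2.2.2
  have hCb : ∀ t : ℝ, 0 ≤ t → ∀ k, hk t k ≤ C / √(1 + t) := fun t ht k => (hCb' t ht).1 k
  obtain ⟨u, hu, hua, hush, hub⟩ := exists_BB hMP hEX hHK C hC hCb
  have ha := aa_sol hHK
  set θ : ℝ := min (κ₀ / (1536 * C ^ 2)) (1 / (192 * C)) with hθ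
  have hθ0 : 0 < θ := lt_min (by positivity) (by positivity)
  have hθ1 : θ * (1536 * C ^ 2) ≤ κ₀ := (le_div_iff₀ (by positivity)).mp (min_le_left _ _)
  have hθ2 : θ * (192 * C) ≤ 1 := (le_div_iff₀ (by positivity)).mp (min_le_right _ _)
  refine ⟨θ, hθ0, fun T hT => ?_⟩
  have hT0 : 0 ≤ T := by linarith
  have hTp : 0 < T := by linarith
  set g : ℝ → ℝ := fun t => Real.exp (2 * t) / √(1 + t) with hg
  have hgc : ∀ t, 0 ≤ t → HasDerivAt g (2 * g t - g t / (2 * (1 + t))) t := by
    intro t ht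
    have h1 : 0 < 1 + t := by linarith
    have e1 : HasDerivAt (fun t : ℝ => Real.exp (2 * t)) (Real.exp (2 * t) * 2) t := by
      have : HasDerivAt (fun t : ℝ => 2 * t) 2 t := by simpa using (hasDerivAt_id t).const_mul 2
      exact this.exp
    have e2 : HasDerivAt (fun t : ℝ => √(1 + t)) (1 / (2 * √(1 + t))) t := by
      have : HasDerivAt (fun t : ℝ => 1 + t) 1 t := by simpa using (hasDerivAt_id t).const_add 1
      exact this.sqrt h1.ne'
    have e3 := e1.div e2 (Real.sqrt_pos.mpr h1).ne'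
    refine e3.congr_deriv ?_
    have h2 : √(1 + t) ^ 2 = 1 + t := Real.sq_sqrt h1.le
    have h3 : √(1 + t) ≠ 0 := (Real.sqrt_pos.mpr h1).ne'
    simp only [hg]
    generalize √(1 + t) = r at h2 h3
    rw [← h2]
    field_simp
  have hg0 : ∀ t, 0 ≤ t → 0 < g t := fun t ht => by
    have h1 : 0 < 1 + t := by linarith
    have := Real.sqrt_pos.mpr h1
    simp only [hg]
    positivity
  set lam : ℝ := θ * Real.exp (-(2 * T)) * √T with hlam
  have hlam0 : 0 < lam := by
    have := Real.sqrt_pos.mpr hTp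
    positivity
  have hlg : ∀ t, 0 ≤ t → t ≤ T → lam * g t ≤ θ := by
    intro t ht htT
    have h1 : lam * g t ≤ lam * g T := mul_le_mul_of_nonneg_left (g_mono t T ht htT) hlam0.le
    refine h1.trans ?_
    have h2 : √T ≤ √(1 + T) := Real.sqrt_le_sqrt (by linarith)
    have h3 : lam * g T = θ * (√T / √(1 + T)) := by
      simp only [hlam, hg]
      rw [Real.exp_neg]
      have := (Real.exp_pos (2 * T)).ne'
      field_simp
    rw [h3]
    calc _ ≤ θ * 1 := mul_le_mul_of_nonneg_left (div_le_one_of_le₀ h2 (Real.sqrt_nonneg _)) hθ0.le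
      _ = θ := mul_one _
  set α : ℝ → ℤ → ℝ := fun t k => lam * aa t k - lam ^ 2 * (192 * C * g t) * u t k with hα
  have hupos : ∀ k t, 0 ≤ t → 0 ≤ u t k := fun k t ht => (aa_nonneg hMP hHK k t ht).trans (hua k t ht)
  have hαb : ∀ k t, 0 ≤ t → t ≤ T → |α t k| ≤ lam * u t k := by
    intro k t ht htT
    have h1 := aa_nonneg hMP hHK k t ht
    have h2 := hua k t ht
    have h3 := hupos k t ht
    have h4 := hlg t ht htT
    have h5 : lam ^ 2 * (192 * C * g t) * u t k ≤ lam * u t k := by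
      have : lam * g t * (192 * C) ≤ 1 := (mul_le_mul_of_nonneg_right h4 (by positivity)).trans hθ2
      have h6 : 0 ≤ lam * u t k := by positivity
      calc lam ^ 2 * (192 * C * g t) * u t k = (lam * g t * (192 * C)) * (lam * u t k) := by ring
        _ ≤ 1 * (lam * u t k) := mul_le_mul_of_nonneg_right this h6
        _ = _ := one_mul _
    have h6 : 0 ≤ lam ^ 2 * (192 * C * g t) * u t k := by
      have := hg0 t ht
      positivity
    have h7 : lam * aa t k ≤ lam * u t k := mul_le_mul_of_nonneg_left h2 hlam0.le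
    have h8 : 0 ≤ lam * aa t k := by positivity
    rw [abs_le]
    simp only [hα]
    constructor <;> linarith
  refine ⟨α, fun k => ?_, fun k t ht => ?_, fun k => ?_, fun k hkT => ?_⟩
  · have c1 := (ha.c k).mono (Icc_subset_Ici_self : Icc 0 T ⊆ Ici 0)
    have c2 := (hu.c k).mono (Icc_subset_Ici_self : Icc 0 T ⊆ Ici 0)
    have c3 : ContinuousOn g (Icc 0 T) := fun t ht => (hgc t ht.1).continuousAt.continuousWithinAt
    exact (c1.const_mul lam).sub (((c3.const_mul (192 * C)).const_mul (lam ^ 2)).mul c2)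
  · have ht0 : 0 ≤ t := ht.1.le
    have d1 := (ha.d k t ht.1).const_mul lam
    have d2 := (((hgc t ht0).const_mul (192 * C)).const_mul (lam ^ 2)).mul (hu.d k t ht.1)
    refine ⟨_, d1.sub d2, ?_⟩
    set β : ℝ := α t (k - 1) + α t (k + 1) with hβ
    have hb1 : |β| ≤ 4 * lam * u t k := by
      have h1 := hαb (k - 1) t ht0 ht.2.le
      have h2 := hαb (k + 1) t ht0 ht.2.le
      have h3 := mul_le_mul_of_nonneg_left (hush k t ht0).1 hlam0.le
      have h4 := mul_le_mul_of_nonneg_left (hush k t ht0).2 hlam0.le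
      have h5 := abs_add_le (α t (k - 1)) (α t (k + 1))
      rw [hβ]
      linarith
    have hu0 := hupos k t ht0
    have hub' := hub k t ht0
    have hgp := hg0 t ht0
    have hb2 : |β| ≤ 1 := by
      have h1 := mul_le_mul_of_nonneg_left hub' (by positivity : 0 ≤ 4 * lam)
      have h2 := hlg t ht0 ht.2.le
      have h3 : 4 * lam * (4 * C * g t) ≤ 16 * C * θ := by
        have := mul_le_mul_of_nonneg_left h2 (by positivity : 0 ≤ 16 * C)
        linarith
      have h4 : 16 * C * θ ≤ 1 := by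
        have : 0 < C * θ := by positivity
        linarith
      exact hb1.trans (h1.trans (h3.trans h4))
    have hb3 : β - β ^ 2 ≤ 1 - Real.exp (-β) := by
      have := Real.abs_exp_sub_one_sub_id_le (x := -β) (by rw [abs_neg]; exact hb2)
      have := (abs_le.mp this).2
      nlinarith
    have hb4 : β ^ 2 ≤ lam ^ 2 * (64 * C * g t) * u t k := by
      have h1 : β ^ 2 ≤ (4 * lam * u t k) ^ 2 := by
        rw [← sq_abs]
        exact pow_le_pow_left₀ (abs_nonneg _) hb1 2
      have h2 : u t k * u t k ≤ 4 * C * g t * u t k := mul_le_mul_of_nonneg_right hub' hu0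
      have h3 := mul_le_mul_of_nonneg_left h2 (by positivity : 0 ≤ 16 * lam ^ 2)
      linarith
    have hb5 : g t ≤ 2 * g t - g t / (2 * (1 + t)) := by
      have : g t / (2 * (1 + t)) ≤ g t := div_le_self hgp.le (by linarith)
      linarith
    have hb6 : lam ^ 2 * (192 * C * g t) * u t k ≤
        lam ^ 2 * (192 * C * (2 * g t - g t / (2 * (1 + t)))) * u t k := by
      apply mul_le_mul_of_nonneg_right _ hu0
      apply mul_le_mul_of_nonneg_left _ (by positivity)
      exact mul_le_mul_of_nonneg_left hb5 (by positivity)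
    have hb7 : 0 ≤ lam ^ 2 * (128 * C * g t) * u t k := by positivity
    have e : β = lam * aa t (k - 1) - lam ^ 2 * (192 * C * g t) * u t (k - 1) +
        (lam * aa t (k + 1) - lam ^ 2 * (192 * C * g t) * u t (k + 1)) := rfl
    linarith
  · simp only [hα]
    rw [aa_zero hHK]
    have h1 := hupos k 0 le_rfl
    have h2 : 0 ≤ lam ^ 2 * (192 * C * g 0) * u 0 k := by
      have := hg0 0 le_rfl
      positivity
    split_ifs
    · linarith
    · linarith
  · simp only [hα]
    have h1 : lam * aa T k = θ * √T * hk T k := by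
      simp only [hlam, aa]
      rw [Real.exp_neg]
      have := (Real.exp_pos (2 * T)).ne'
      field_simp
    have h2 : θ * κ₀ ≤ θ * √T * hk T k := by
      have h3 := mul_le_mul_of_nonneg_left hkT (by positivity : 0 ≤ θ * √T)
      have h4 : θ * √T * (κ₀ / √T) = θ * κ₀ := by
        have := (Real.sqrt_pos.mpr hTp).ne'
        field_simp
      linarith
    have h3 : lam ^ 2 * (192 * C * g T) * u T k ≤ θ * κ₀ / 2 := by
      have h4 := mul_le_mul_of_nonneg_left (hub k T hT0) (by
        have := hg0 T hT0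
        positivity : 0 ≤ lam ^ 2 * (192 * C * g T))
      refine h4.trans ?_
      have h5 : lam ^ 2 * (192 * C * g T) * (4 * C * g T) = 768 * C ^ 2 * (lam * g T) ^ 2 := by ring
      have h6 : (lam * g T) ^ 2 ≤ θ ^ 2 := pow_le_pow_left₀ (by
        have := hg0 T hT0
        positivity) (hlg T hT0 le_rfl) 2
      have h7 := mul_le_mul_of_nonneg_left h6 (by positivity : 0 ≤ 768 * C ^ 2)
      have h8 := mul_le_mul_of_nonneg_left hθ1 hθ0.le
      rw [show Real.exp (2 * T) / √(1 + T) = g T from rfl, h5]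
      linarith
    linarith

end Pool.Agent.D0H65.UR
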