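import Pool.Agent.D0H96.UR.Stm

/-! Project UR: the heat kernel of the integers by its Fourier integral (`S_HK`). -/

set_option autoImplicit false

open Filter Topology MeasureTheory Set Real

namespace Pool.Agent.D0H65.UR

open Pool.Agent.D0H96.UR

/-- The exponential factor. -/
noncomputable def Ef (t θ : ℝ) : ℝ := Real.exp (-(2 * t * (1 - Real.cos θ)))

theorem Ef_pos (t θ : ℝ) : 0 < Ef t θ := Real.exp_pos _

theorem Ef_cont (t : ℝ) : Continuous (Ef t) := by
  unfold Ef
  fun_prop

theorem Ef_le (t θ : ℝ) (ht : 0 ≤ t) : Ef t θ ≤ 1 := by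
  unfold Ef
  rw [Real.exp_le_one_iff]
  have : 0 ≤ 1 - Real.cos θ := by linarith [Real.cos_le_one θ]
  nlinarith [mul_nonneg ht this]

theorem hk_eq (t : ℝ) (k : ℤ) :
    hk t k = (2 * π)⁻¹ * ∫ θ in (-π)..π, Ef t θ * Real.cos (k * θ) := rfl

theorem hk_int (t : ℝ) (j : ℤ) : IntervalIntegrable (fun θ => Ef t θ * Real.cos (j * θ)) volume (-π) π :=
  ((Ef_cont t).mul (by fun_prop)).intervalIntegrable _ _

theorem hk_deriv (t : ℝ) (k : ℤ) :
    HasDerivAt (fun s => hk s k) (hk t (k - 1) + hk t (k + 1) - 2 * hk t k) t := by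
  have key := intervalIntegral.hasDerivAt_integral_of_dominated_loc_of_deriv_le (μ := volume)
    (a := -π) (b := π) (F := fun s θ => Ef s θ * Real.cos (k * θ))
    (F' := fun s θ => -(2 * (1 - Real.cos θ)) * (Ef s θ * Real.cos (k * θ)))
    (x₀ := t) (s := Metric.ball t 1) (bound := fun _ => 4 * Real.exp (4 * (|t| + 1)))
    (Metric.ball_mem_nhds t one_pos)
    (Eventually.of_forall fun s => ((Ef_cont s).mul (by fun_prop)).aestronglyMeasurable)
    (((Ef_cont t).mul (by fun_prop)).intervalIntegrable _ _)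
    ((Continuous.mul (by fun_prop) ((Ef_cont t).mul (by fun_prop))).aestronglyMeasurable)
    (Eventually.of_forall fun θ _ s hs => by
      have h1 : 0 ≤ 1 - Real.cos θ := by linarith [Real.cos_le_one θ]
      have h2 : 1 - Real.cos θ ≤ 2 := by linarith [Real.neg_one_le_cos θ]
      have h3 : |s| ≤ |t| + 1 := by
        rw [Metric.mem_ball, Real.dist_eq] at hs
        have := abs_sub_abs_le_abs_sub s t
        linarith
      have h4 : Ef s θ ≤ Real.exp (4 * (|t| + 1)) := by
        unfold Ef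
        apply Real.exp_le_exp.mpr
        have : -(2 * s * (1 - Real.cos θ)) ≤ |2 * s * (1 - Real.cos θ)| := neg_le_abs _
        rw [abs_mul, abs_mul, abs_of_nonneg h1, abs_two] at this
        nlinarith [abs_nonneg s]
      rw [Real.norm_eq_abs, abs_mul, abs_mul, abs_neg, abs_mul, abs_two, abs_of_nonneg h1,
        abs_of_pos (Ef_pos s θ)]
      have h5 : |Real.cos (k * θ)| ≤ 1 := Real.abs_cos_le_one _
      have h6 := Ef_pos s θ
      have h7 : Ef s θ * |Real.cos (k * θ)| ≤ Real.exp (4 * (|t| + 1)) := by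
        calc _ ≤ Ef s θ * 1 := mul_le_mul_of_nonneg_left h5 h6.le
          _ ≤ _ := by rw [mul_one]; exact h4
      exact mul_le_mul (by linarith) h7 (mul_nonneg h6.le (abs_nonneg _)) (by norm_num))
    (intervalIntegrable_const)
    (Eventually.of_forall fun θ _ s _ => by
      have h1 : HasDerivAt (fun s : ℝ => -(2 * s * (1 - Real.cos θ))) (-(2 * (1 - Real.cos θ))) s := by
        have h0 : HasDerivAt (fun s : ℝ => -(2 * (1 - Real.cos θ)) * s) (-(2 * (1 - Real.cos θ))) s := by
          simpa using (hasDerivAt_id s).const_mul (-(2 * (1 - Real.cos θ)))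
        exact h0.congr_of_eventuallyEq (Eventually.of_forall fun s => by simp only; ring)
      have h2 := (h1.exp).mul_const (Real.cos (k * θ))
      refine h2.congr_deriv ?_
      unfold Ef
      ring)
  have h := key.2.const_mul ((2 * π)⁻¹)
  refine h.congr_deriv ?_
  rw [hk_eq, hk_eq, hk_eq]
  have hi : ∀ j : ℤ, IntervalIntegrable (fun θ => Ef t θ * Real.cos (j * θ)) volume (-π) π :=
    fun j => ((Ef_cont t).mul (by fun_prop)).intervalIntegrable _ _
  rw [← mul_add, ← intervalIntegral.integral_add (hi _) (hi _)]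
  have : (2 : ℝ) * ((2 * π)⁻¹ * ∫ θ in (-π)..π, Ef t θ * Real.cos (k * θ)) =
      (2 * π)⁻¹ * ∫ θ in (-π)..π, 2 * (Ef t θ * Real.cos (k * θ)) := by
    rw [intervalIntegral.integral_const_mul]; ring
  rw [this, ← mul_sub, ← intervalIntegral.integral_sub ((hi _).add (hi _)) ((hi _).const_mul 2)]
  congr 1
  apply intervalIntegral.integral_congr
  intro θ _
  simp only
  have e1 : Real.cos (((k - 1 : ℤ) : ℝ) * θ) = Real.cos (k * θ) * Real.cos θ + Real.sin (k * θ) * Real.sin θ := by
    rw [← Real.cos_sub]; congr 1; push_cast; ring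
  have e2 : Real.cos (((k + 1 : ℤ) : ℝ) * θ) = Real.cos (k * θ) * Real.cos θ - Real.sin (k * θ) * Real.sin θ := by
    rw [← Real.cos_add]; congr 1; push_cast; ring
  rw [e1, e2]
  ring

theorem hk_zero (k : ℤ) : hk 0 k = if k = 0 then 1 else 0 := by
  rw [hk_eq]
  have h0 : ∀ θ, Ef 0 θ = 1 := fun θ => by simp [Ef]
  simp only [h0, one_mul]
  split_ifs with hk
  · subst hk
    simp only [Int.cast_zero, zero_mul, Real.cos_zero]
    rw [intervalIntegral.integral_const, smul_eq_mul, mul_one]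
    have : π ≠ 0 := Real.pi_ne_zero
    field_simp
    ring
  · have hk' : (k : ℝ) ≠ 0 := by exact_mod_cast hk
    rw [intervalIntegral.integral_comp_mul_left (fun x => Real.cos x) hk', integral_cos]
    have : Real.sin (k * π) = 0 := Real.sin_int_mul_pi k
    have h2 : Real.sin (k * -π) = 0 := by rw [mul_neg, Real.sin_neg, this, neg_zero]
    rw [this, h2]
    simp

theorem hk_neg (t : ℝ) (k : ℤ) : hk t (-k) = hk t k := by
  rw [hk_eq, hk_eq]
  congr 1
  apply intervalIntegral.integral_congr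
  intro θ _
  simp only [Int.cast_neg, neg_mul, Real.cos_neg]

/-- The integral of the exponential factor. -/
noncomputable def Jf (t : ℝ) : ℝ := ∫ θ in (-π)..π, Ef t θ

theorem hk_abs (t : ℝ) (k : ℤ) : |hk t k| ≤ (2 * π)⁻¹ * Jf t := by
  rw [hk_eq, abs_mul, abs_of_nonneg (by positivity : (0:ℝ) ≤ (2 * π)⁻¹)]
  apply mul_le_mul_of_nonneg_left _ (by positivity)
  have hle : -π ≤ π := by linarith [Real.pi_pos]
  have := intervalIntegral.norm_integral_le_integral_norm (μ := volume)
    (f := fun θ => Ef t θ * Real.cos (k * θ)) hle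
  rw [Real.norm_eq_abs] at this
  refine this.trans ?_
  apply intervalIntegral.integral_mono_on hle
    (((Ef_cont t).mul (by fun_prop)).norm.intervalIntegrable _ _) ((Ef_cont t).intervalIntegrable _ _)
  intro θ _
  show ‖Ef t θ * Real.cos (k * θ)‖ ≤ Ef t θ
  rw [Real.norm_eq_abs, abs_mul, abs_of_pos (Ef_pos t θ)]
  calc _ ≤ Ef t θ * 1 := mul_le_mul_of_nonneg_left (Real.abs_cos_le_one _) (Ef_pos t θ).le
    _ = _ := mul_one _

theorem Jf_le_one (t : ℝ) (ht : 0 ≤ t) : (2 * π)⁻¹ * Jf t ≤ 1 := by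
  have hle : -π ≤ π := by linarith [Real.pi_pos]
  have : Jf t ≤ ∫ _θ in (-π)..π, (1 : ℝ) :=
    intervalIntegral.integral_mono_on hle ((Ef_cont t).intervalIntegrable _ _)
      (intervalIntegrable_const) fun θ _ => Ef_le t θ ht
  rw [intervalIntegral.integral_const, smul_eq_mul, mul_one] at this
  have hp := Real.pi_pos
  calc (2 * π)⁻¹ * Jf t ≤ (2 * π)⁻¹ * (π - -π) := mul_le_mul_of_nonneg_left this (by positivity)
    _ = 1 := by field_simp; ring

theorem Jf_le (t : ℝ) (ht : 0 ≤ t) : Jf t ≤ Real.exp 4 * √(π * π ^ 2 / 4) / √(1 + t) := by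
  have hle : -π ≤ π := by linarith [Real.pi_pos]
  have hp := Real.pi_pos
  have h1t : 0 < 1 + t := by linarith
  set b : ℝ := 4 * (1 + t) / π ^ 2 with hb
  have hb0 : 0 < b := by positivity
  have hint : Integrable (fun x : ℝ => Real.exp (-b * x ^ 2)) := integrable_exp_neg_mul_sq hb0
  have h1 : Jf t ≤ ∫ θ in (-π)..π, Real.exp 4 * Real.exp (-b * θ ^ 2) := by
    apply intervalIntegral.integral_mono_on hle ((Ef_cont t).intervalIntegrable _ _)
      ((hint.const_mul _).intervalIntegrable)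
    intro θ hθ
    rw [← Real.exp_add]
    unfold Ef
    apply Real.exp_le_exp.mpr
    have hc := Real.cos_le_one_sub_mul_cos_sq (abs_le.mpr hθ)
    have h2 : 2 / π ^ 2 * θ ^ 2 ≤ 1 - Real.cos θ := by linarith
    have h3 : 2 * t * (2 / π ^ 2 * θ ^ 2) ≤ 2 * t * (1 - Real.cos θ) :=
      mul_le_mul_of_nonneg_left h2 (by positivity)
    have h4 : b * θ ^ 2 = 2 * t * (2 / π ^ 2 * θ ^ 2) + 4 * (θ ^ 2 / π ^ 2) := by
      rw [hb]; field_simp; ring
    have h5 : θ ^ 2 / π ^ 2 ≤ 1 := by
      rw [div_le_one (by positivity)]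
      apply sq_le_sq'
      · linarith [hθ.1]
      · exact hθ.2
    linarith
  refine h1.trans ?_
  rw [intervalIntegral.integral_const_mul, mul_div_assoc]
  apply mul_le_mul_of_nonneg_left _ (Real.exp_pos _).le
  rw [intervalIntegral.integral_of_le hle]
  refine (setIntegral_le_integral hint (Eventually.of_forall fun x => (Real.exp_pos _).le)).trans ?_
  rw [integral_gaussian, ← Real.sqrt_div (by positivity)]
  apply Real.sqrt_le_sqrt
  rw [hb]
  apply le_of_eq
  field_simp

theorem bessel (t : ℝ) (F : Finset ℤ) : ∑ k ∈ F, (hk t (k + 1) - hk t k) ^ 2 ≤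
    (2 * π)⁻¹ * ∫ θ in (-π)..π, (Ef t θ) ^ 2 * (2 * (1 - Real.cos θ)) := by
  have hp := Real.pi_pos
  have hab : -π < π := by linarith
  set f : ℝ → ℂ := fun θ => (Ef t θ : ℂ) * (Complex.exp (θ * Complex.I) - 1) with hf
  have hfc : Continuous f := by
    have := Ef_cont t
    rw [hf]
    fun_prop
  have hL2 : MemLp f 2 (volume.restrict (Ioc (-π) π)) := by
    apply MemLp.of_bound (C := (SupSet.sSup ((fun θ => ‖f θ‖) '' Icc (-π) π))) hfc.aestronglyMeasurable
    rw [ae_restrict_iff' measurableSet_Ioc]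
    refine Eventually.of_forall fun θ hθ => ?_
    apply le_csSup
    · exact (isCompact_Icc.image hfc.norm).bddAbove
    · exact ⟨θ, Ioc_subset_Icc_self hθ, rfl⟩
  have hS := hasSum_sq_fourierCoeffOn hab hL2
  have hc : ∀ k : ℤ, (fourierCoeffOn hab f (-k)).re = hk t (k + 1) - hk t k := by
    intro k
    rw [fourierCoeffOn_eq_integral, hk_eq, hk_eq, ← mul_sub, ← intervalIntegral.integral_sub
      (hk_int t _) (hk_int t _)]
    have h2 : (1 : ℝ) / (π - -π) = (2 * π)⁻¹ := by rw [one_div]; congr 1; ring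
    rw [h2, Complex.smul_re, smul_eq_mul]
    congr 1
    have h3 : ∀ θ : ℝ, (fourier (- -k) (θ : AddCircle (π - -π)) : ℂ) • f θ =
        (Ef t θ : ℂ) * (Complex.exp (((k + 1 : ℤ) : ℝ) * θ * Complex.I) - Complex.exp ((k : ℝ) * θ * Complex.I)) := by
      intro θ
      rw [fourier_coe_apply, smul_eq_mul, hf]
      have h4 : (2 * (π : ℂ) * Complex.I * ((- -k : ℤ) : ℂ) * (θ : ℂ) / ((π - -π : ℝ) : ℂ)) =
          (k : ℝ) * θ * Complex.I := by
        have : (π : ℂ) ≠ 0 := by exact_mod_cast hp.ne'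
        push_cast
        rw [neg_neg]
        field_simp
        ring
      rw [h4]
      have h5 : Complex.exp (((k + 1 : ℤ) : ℝ) * θ * Complex.I) =
          Complex.exp ((k : ℝ) * θ * Complex.I) * Complex.exp (θ * Complex.I) := by
        rw [← Complex.exp_add]; congr 1; push_cast; ring
      rw [h5]
      ring
    simp_rw [h3]
    have hcont : Continuous fun θ : ℝ => (Ef t θ : ℂ) * (Complex.exp (((k + 1 : ℤ) : ℝ) * θ * Complex.I) -
        Complex.exp ((k : ℝ) * θ * Complex.I)) := by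
      have := Ef_cont t
      fun_prop
    have h6 := Complex.reCLM.intervalIntegral_comp_comm (hcont.intervalIntegrable (μ := volume) (-π) π)
    have h7 : ∀ z : ℂ, Complex.reCLM z = z.re := fun _ => rfl
    rw [h7] at h6
    rw [← h6]
    apply intervalIntegral.integral_congr
    intro θ _
    simp only [h7, Complex.re_ofReal_mul, Complex.sub_re]
    rw [← Complex.ofReal_mul, ← Complex.ofReal_mul, Complex.exp_ofReal_mul_I_re, Complex.exp_ofReal_mul_I_re]
    ring
  have hle : ∀ k : ℤ, (hk t (k + 1) - hk t k) ^ 2 ≤ ‖fourierCoeffOn hab f (-k)‖ ^ 2 := by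
    intro k
    rw [← hc k]
    have := Complex.abs_re_le_norm (fourierCoeffOn hab f (-k))
    rw [← sq_abs]
    exact pow_le_pow_left₀ (abs_nonneg _) this 2
  have h1 : ∑ k ∈ F, ‖fourierCoeffOn hab f (-k)‖ ^ 2 ≤ (π - -π)⁻¹ • ∫ x in (-π)..π, ‖f x‖ ^ 2 := by
    have := sum_le_hasSum (F.map (Equiv.neg ℤ).toEmbedding) (fun i _ => by positivity) hS
    rw [Finset.sum_map] at this
    simpa using this
  refine (Finset.sum_le_sum fun k _ => hle k).trans (h1.trans (le_of_eq ?_))
  rw [smul_eq_mul]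
  have h2 : (π - -π)⁻¹ = (2 * π)⁻¹ := by congr 1; ring
  rw [h2]
  congr 1
  apply intervalIntegral.integral_congr
  intro θ _
  simp only [hf, norm_mul, mul_pow, Complex.norm_real, Real.norm_eq_abs, sq_abs]
  congr 1
  rw [← Complex.normSq_eq_norm_sq, Complex.normSq_apply, Complex.sub_re, Complex.sub_im,
    Complex.exp_ofReal_mul_I_re, Complex.exp_ofReal_mul_I_im, Complex.one_re, Complex.one_im]
  nlinarith [Real.sin_sq_add_cos_sq θ]

theorem t_HK : S_HK := by
  refine ⟨hk_deriv, hk_zero, fun t k ht => (hk_abs t k).trans (Jf_le_one t ht), hk_neg, ?_⟩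
  have hp := Real.pi_pos
  set K : ℝ := (2 * π)⁻¹ * (Real.exp 4 * √(π * π ^ 2 / 4)) with hK
  have hK0 : 0 < K := by positivity
  refine ⟨5 * K, by positivity, fun t ht => ⟨fun k => ?_, fun F => ?_⟩⟩
  · refine (le_abs_self _).trans ((hk_abs t k).trans ?_)
    have := mul_le_mul_of_nonneg_left (Jf_le t ht) (by positivity : (0:ℝ) ≤ (2 * π)⁻¹)
    refine this.trans ?_
    rw [← mul_div_assoc, ← hK]
    apply div_le_div_of_nonneg_right _ (Real.sqrt_nonneg _)
    linarith
  · refine (bessel t F).trans ?_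
    have hle : -π ≤ π := by linarith [Real.pi_pos]
    have h1t : 0 < 1 + t := by linarith
    have h1 : ∫ θ in (-π)..π, (Ef t θ) ^ 2 * (2 * (1 - Real.cos θ)) ≤ ∫ θ in (-π)..π, 5 / (1 + t) * Ef t θ := by
      have := Ef_cont t
      apply intervalIntegral.integral_mono_on hle
        (Continuous.intervalIntegrable (by fun_prop) _ _) (Continuous.intervalIntegrable (by fun_prop) _ _)
      intro θ _
      have h2 : Ef t θ * (2 * (1 - Real.cos θ)) ≤ 5 / (1 + t) := by
        rw [le_div_iff₀ h1t]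
        have hy : 0 ≤ 1 - Real.cos θ := by linarith [Real.cos_le_one θ]
        have hy2 : 1 - Real.cos θ ≤ 2 := by linarith [Real.neg_one_le_cos θ]
        have h3 : Ef t θ * (2 * t * (1 - Real.cos θ)) ≤ 1 := by
          unfold Ef
          set x := 2 * t * (1 - Real.cos θ) with hx
          have h4 : x + 1 ≤ Real.exp x := Real.add_one_le_exp x
          rw [Real.exp_neg, inv_mul_le_iff₀ (Real.exp_pos _)]
          linarith
        have h4 : Ef t θ * (2 * (1 - Real.cos θ)) ≤ 1 * 4 :=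
          mul_le_mul (Ef_le t θ ht) (by linarith) (by positivity) (by norm_num)
        nlinarith
      calc (Ef t θ) ^ 2 * (2 * (1 - Real.cos θ)) = Ef t θ * (Ef t θ * (2 * (1 - Real.cos θ))) := by ring
        _ ≤ Ef t θ * (5 / (1 + t)) := mul_le_mul_of_nonneg_left h2 (Ef_pos t θ).le
        _ = 5 / (1 + t) * Ef t θ := mul_comm _ _
    rw [intervalIntegral.integral_const_mul] at h1
    have h2 := mul_le_mul_of_nonneg_left (Jf_le t ht) (by positivity : (0:ℝ) ≤ 5 / (1 + t))
    have h3 := mul_le_mul_of_nonneg_left (h1.trans h2) (by positivity : (0:ℝ) ≤ (2 * π)⁻¹)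
    refine h3.trans (le_of_eq ?_)
    rw [hK]
    have : √(1 + t) ≠ 0 := (Real.sqrt_pos.mpr h1t).ne'
    field_simp

end Pool.Agent.D0H65.UR
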