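import Pool.Agent.D0H65.UR.NumA

/-! Project UR: NUM1, the gradients. -/

set_option autoImplicit false

open Filter Topology MeasureTheory Set

namespace Pool.Agent.D0H65.UR

open Pool.Agent.D0H96.UR
open Pool.Agent.D0H96.UR.Chain

/-- The coefficients of the gradient at `x`. -/
noncomputable def gc (x : ℤ) : ℤ →₀ ℝ := Finsupp.single (x + 1) 1 + Finsupp.single x (-1)

theorem gc_Lw (x : ℤ) (η : Cfg) : Lw (⇑(gc x)) η = (η (x + 1) : ℝ) - (η x : ℝ) := by
  unfold gc
  rw [Lw_fs, Lw_fsingle, Lw_fsingle]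
  ring

theorem gc_av (x : ℤ) (t : ℝ) (k : ℤ) :
    av (gc x) t k = -(Real.exp (2 * t) * (hk t (k - x - 1 + 1) - hk t (k - x - 1))) := by
  unfold gc
  rw [av_add, av_single, av_single, show k - (x + 1) = k - x - 1 by ring, show k - x - 1 + 1 = k - x by ring]
  ring

theorem gc_sum {C : ℝ} {t : ℝ}
    (hC : ∀ F : Finset ℤ, ∑ k ∈ F, (hk t (k + 1) - hk t k) ^ 2 ≤ C / ((1 + t) * √(1 + t))) (x : ℤ)
    (F : Finset ℤ) : ∑ k ∈ F, av (gc x) t k ^ 2 ≤ C * Real.exp (4 * t) / ((1 + t) * √(1 + t)) := by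
  classical
  have h1 := hC (F.map (Equiv.subRight (x + 1)).toEmbedding)
  rw [Finset.sum_map] at h1
  have e : ∑ k ∈ F, av (gc x) t k ^ 2 = Real.exp (4 * t) *
      ∑ k ∈ F, (hk t ((Equiv.subRight (x + 1)).toEmbedding k + 1) - hk t ((Equiv.subRight (x + 1)).toEmbedding k)) ^ 2 := by
    rw [Finset.mul_sum]
    refine Finset.sum_congr rfl fun k _ => ?_
    rw [gc_av]
    show _ = Real.exp (4 * t) * (hk t (k - (x + 1) + 1) - hk t (k - (x + 1))) ^ 2
    have e4 : Real.exp (4 * t) = Real.exp (2 * t) ^ 2 := by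
      rw [← Real.exp_nat_mul]
      congr 1
      push_cast
      ring
    rw [e4, show k - x - 1 = k - (x + 1) by ring]
    ring
  rw [e]
  refine (mul_le_mul_of_nonneg_left h1 (Real.exp_pos _).le).trans (le_of_eq ?_)
  ring

theorem t_NUM1 (hMP : S_MP) (hEX : S_EX) (hHK : S_HK) (hVV : S_VV) : S_NUM1 := by
  obtain ⟨C, hC0, hC⟩ := hHK.2.2.2.2
  refine ⟨9 * C, by positivity, fun R T κ X E hT hκ hE => ?_⟩
  choose V hV0 hV hVc hVd hVs using fun x => hVV (gc x)
  have hq := fun η => quad hMP hEX hHK.1 hHK.2.1 X κ hκ gc V hV0 hV hVc hVd E (fun η hη => by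
    refine (hE η hη).trans (le_of_eq ?_)
    congr 1
    exact Finset.sum_congr rfl fun x _ => by rw [gc_Lw]) hT η
  refine (pr_le X κ (fun x => av (gc x) T) (fun x => V x T) R T E hq).trans ?_
  refine mul_le_mul_of_nonneg_left ?_ hκ
  have h1T : 0 < 1 + T := by linarith
  have key : ∀ x ∈ X, (∑ k ∈ Finset.Icc (-(R : ℤ)) R, av (gc x) T k ^ 2) + ∑ k ∈ Finset.Icc (-(R : ℤ)) R, V x T k ≤
      9 * C * Real.exp (4 * T) / ((1 + T) * √(1 + T)) := by
    intro x _
    have s1 := gc_sum (hC T hT).2 x (Finset.Icc (-(R : ℤ)) R)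
    have s2 : ∑ k ∈ Finset.Icc (-(R : ℤ)) R, V x T k ≤ 8 * C * Real.exp (4 * T) / ((1 + T) * √(1 + T)) := by
      refine hVs x (fun t => 8 * C * Real.exp (4 * t) / ((1 + t) * √(1 + t)))
        (fun t => (4 - 3 / (2 * (1 + t))) * (8 * C * Real.exp (4 * t) / ((1 + t) * √(1 + t)))) T hT ?_ ?_ ?_ _
      · positivity
      · intro t ht
        have h1 : 0 < 1 + t := by linarith [ht.1]
        have hs : 0 < √(1 + t) := Real.sqrt_pos.mpr h1
        have d1 : HasDerivAt (fun t : ℝ => 8 * C * Real.exp (4 * t)) (8 * C * (Real.exp (4 * t) * 4)) t := by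
          have : HasDerivAt (fun t : ℝ => 4 * t) 4 t := by simpa using (hasDerivAt_id t).const_mul 4
          exact this.exp.const_mul _
        have d2 : HasDerivAt (fun t : ℝ => 1 + t) 1 t := by simpa using (hasDerivAt_id t).const_add 1
        have d3 := d2.mul (d2.sqrt h1.ne')
        have d4 := d1.div d3 (by
          show (1 + t) * √(1 + t) ≠ 0
          positivity)
        refine d4.congr_deriv ?_
        have h2 : √(1 + t) ^ 2 = 1 + t := Real.sq_sqrt h1.le
        show (8 * C * (Real.exp (4 * t) * 4) * ((1 + t) * √(1 + t)) -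
          8 * C * Real.exp (4 * t) * (1 * √(1 + t) + (1 + t) * (1 / (2 * √(1 + t))))) / ((1 + t) * √(1 + t)) ^ 2 = _
        generalize √(1 + t) = r at h2 hs
        rw [← h2]
        field_simp
        ring
      · intro t ht F
        have h1 : 0 < 1 + t := by linarith [ht.1]
        have s3 := sum_two F (av (gc x) t) _ (gc_sum (hC t ht.1).2 x)
        have e1 : 4 * (C * Real.exp (4 * t) / ((1 + t) * √(1 + t))) =
            1 / 2 * (8 * C * Real.exp (4 * t) / ((1 + t) * √(1 + t))) := by ring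
        rw [e1] at s3
        have hv : 0 ≤ 8 * C * Real.exp (4 * t) / ((1 + t) * √(1 + t)) := by positivity
        generalize 8 * C * Real.exp (4 * t) / ((1 + t) * √(1 + t)) = v at s3 hv ⊢
        have h3 : 3 / (2 * (1 + t)) ≤ 3 / 2 := by
          apply div_le_div_of_nonneg_left (by norm_num) (by norm_num)
          linarith [ht.1]
        have h4 : 5 / 2 * v ≤ (4 - 3 / (2 * (1 + t))) * v := mul_le_mul_of_nonneg_right (by linarith) hv
        linarith
    calc _ ≤ C * Real.exp (4 * T) / ((1 + T) * √(1 + T)) + 8 * C * Real.exp (4 * T) / ((1 + T) * √(1 + T)) :=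
          add_le_add s1 s2
      _ = _ := by ring
  refine (Finset.sum_le_sum key).trans (le_of_eq ?_)
  rw [Finset.sum_const, nsmul_eq_mul]

end Pool.Agent.D0H65.UR
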