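import Pool.Agent.D0H65.UR.NumA

/-! Project UR: NUM2, the sums. -/

set_option autoImplicit false

open Filter Topology MeasureTheory Set

namespace Pool.Agent.D0H65.UR

open Pool.Agent.D0H96.UR
open Pool.Agent.D0H96.UR.Chain

/-- The coefficients of the sum over `I`. -/
noncomputable def sc (I : Finset ℤ) : ℤ →₀ ℝ := ∑ x ∈ I, Finsupp.single x 1

theorem sc_insert {I : Finset ℤ} {j : ℤ} (hj : j ∉ I) : sc (insert j I) = Finsupp.single j 1 + sc I := by
  unfold sc
  rw [Finset.sum_insert hj]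

theorem sc_Lw (I : Finset ℤ) (η : Cfg) : Lw (⇑(sc I)) η = ∑ x ∈ I, (η x : ℝ) := by
  classical
  induction I using Finset.induction_on with
  | empty =>
    unfold sc Lw Finsupp.sum
    simp
  | insert j I hj ih => rw [sc_insert hj, Lw_fs, Lw_fsingle, ih, Finset.sum_insert hj, mul_one]

theorem sc_av (I : Finset ℤ) (t : ℝ) (k : ℤ) : av (sc I) t k = Real.exp (2 * t) * ∑ x ∈ I, hk t (k - x) := by
  classical
  induction I using Finset.induction_on with
  | empty =>
    unfold sc av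
    simp
  | insert j I hj ih => rw [sc_insert hj, av_add, av_single, ih, Finset.sum_insert hj]; ring

theorem sc_sum {t : ℝ} (h0 : ∀ k, 0 ≤ hk t k) (h1 : ∀ F : Finset ℤ, ∑ k ∈ F, hk t k ≤ 1) (I F : Finset ℤ) :
    ∑ k ∈ F, av (sc I) t k ^ 2 ≤ I.card * Real.exp (4 * t) := by
  classical
  have e4 : Real.exp (4 * t) = Real.exp (2 * t) ^ 2 := by
    rw [← Real.exp_nat_mul]
    congr 1
    push_cast
    ring
  have hle : ∀ k, ∑ x ∈ I, hk t (k - x) ≤ 1 := by
    intro k
    have := h1 (I.map (Equiv.subLeft k).toEmbedding)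
    rw [Finset.sum_map] at this
    exact this
  have hnn : ∀ k, 0 ≤ ∑ x ∈ I, hk t (k - x) := fun k => Finset.sum_nonneg fun x _ => h0 _
  calc ∑ k ∈ F, av (sc I) t k ^ 2 ≤ ∑ k ∈ F, Real.exp (2 * t) ^ 2 * ∑ x ∈ I, hk t (k - x) := by
        refine Finset.sum_le_sum fun k _ => ?_
        rw [sc_av, mul_pow]
        refine mul_le_mul_of_nonneg_left ?_ (sq_nonneg _)
        have := hle k
        have := hnn k
        nlinarith
    _ = Real.exp (2 * t) ^ 2 * ∑ x ∈ I, ∑ k ∈ F, hk t (k - x) := by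
        rw [← Finset.mul_sum, Finset.sum_comm]
    _ ≤ Real.exp (2 * t) ^ 2 * ∑ x ∈ I, 1 := by
        refine mul_le_mul_of_nonneg_left (Finset.sum_le_sum fun x _ => ?_) (sq_nonneg _)
        have := h1 (F.map (Equiv.subRight x).toEmbedding)
        rw [Finset.sum_map] at this
        exact this
    _ = I.card * Real.exp (4 * t) := by
        rw [Finset.sum_const, nsmul_eq_mul, e4]
        ring

theorem t_NUM2 (hMP : S_MP) (hEX : S_EX) (hHK : S_HK) (hHM : S_HM) (hVV : S_VV) : S_NUM2 := by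
  intro R T κ I E hT hκ hE
  obtain ⟨V, hV0, hV, hVc, hVd, hVs⟩ := hVV (sc I)
  have hq := fun η => quad hMP hEX hHK.1 hHK.2.1 ({()} : Finset Unit) κ hκ (fun _ => sc I) (fun _ => V)
    (fun _ => hV0) (fun _ => hV) (fun _ => hVc) (fun _ => hVd) E (fun η hη => by
    refine (hE η hη).trans (le_of_eq ?_)
    rw [Finset.sum_singleton, sc_Lw]) hT η
  refine (pr_le ({()} : Finset Unit) κ (fun _ => av (sc I) T) (fun _ => V T) R T E hq).trans ?_
  refine mul_le_mul_of_nonneg_left ?_ hκ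
  rw [Finset.sum_singleton]
  have s1 := sc_sum (hHM T hT).1 (hHM T hT).2.1 I (Finset.Icc (-(R : ℤ)) R)
  have s2 : ∑ k ∈ Finset.Icc (-(R : ℤ)) R, V T k ≤ 2 * I.card * Real.exp (4 * T) := by
    refine hVs (fun t => 2 * I.card * Real.exp (4 * t)) (fun t => 2 * I.card * (Real.exp (4 * t) * 4)) T hT
      (by positivity) (fun t _ => ?_) (fun t ht F => ?_) _
    · have : HasDerivAt (fun t : ℝ => 4 * t) 4 t := by simpa using (hasDerivAt_id t).const_mul 4
      exact this.exp.const_mul _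
    · have s3 := sum_two F (av (sc I) t) _ (sc_sum (hHM t ht.1).1 (hHM t ht.1).2.1 I)
      linarith
  linarith

end Pool.Agent.D0H65.UR
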