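import Pool.Agent.D0H96.UR.Stm2

/-! Project UR: averages over the fair coins of the initial configuration. -/

set_option autoImplicit false

open Filter Topology MeasureTheory Set

namespace Pool.Agent.D0H65.UR

open Pool.Agent.D0H96.UR
open Pool.Agent.D0H96.UR.Chain

/-- The sign of the site `k`. -/
def sgn (S : Finset ℤ) (k : ℤ) : ℤ := if k ∈ S then 1 else -1

theorem sgn_abs (S : Finset ℤ) (k : ℤ) : |((sgn S k : ℤ) : ℝ)| = 1 := by
  unfold sgn
  split_ifs <;> simp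

theorem ini_eq (R : ℕ) (S : Finset ℤ) :
    ini R S = ∑ k ∈ Finset.Icc (-(R : ℤ)) R, Finsupp.single k (sgn S k) := rfl

theorem ini_apply (R : ℕ) (S : Finset ℤ) (k : ℤ) :
    ini R S k = if k ∈ Finset.Icc (-(R : ℤ)) R then sgn S k else 0 := by
  rw [ini_eq, Finsupp.finsetSum_apply]
  simp only [Finsupp.single_apply]
  rw [Finset.sum_ite_eq']

theorem Lw_sum (a : ℤ → ℝ) (A : Finset ℤ) (f : ℤ → Cfg) : Lw a (∑ k ∈ A, f k) = ∑ k ∈ A, Lw a (f k) := by
  classical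
  induction A using Finset.induction_on with
  | empty =>
    simp only [Finset.sum_empty]
    unfold Lw
    exact Finsupp.sum_zero_index
  | insert j A hj ih => rw [Finset.sum_insert hj, Finset.sum_insert hj, Lw_add, ih]

theorem Lw_ini (a : ℤ → ℝ) (R : ℕ) (S : Finset ℤ) :
    Lw a (ini R S) = ∑ k ∈ Finset.Icc (-(R : ℤ)) R, ((sgn S k : ℤ) : ℝ) * a k := by
  rw [ini_eq, Lw_sum]
  exact Finset.sum_congr rfl fun k _ => Lw_single a k _

theorem Nw_ini (V : ℤ → ℝ) (R : ℕ) (S : Finset ℤ) :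
    Nw V (ini R S) = ∑ k ∈ Finset.Icc (-(R : ℤ)) R, V k := by
  have h : (ini R S).support ⊆ Finset.Icc (-(R : ℤ)) R := by
    intro k hk
    by_contra hk'
    rw [Finsupp.mem_support_iff, ini_apply, if_neg hk'] at hk
    exact hk rfl
  rw [Nw_eq h]
  refine Finset.sum_congr rfl fun k hk => ?_
  rw [ini_apply, if_pos hk, sgn_abs, one_mul]

theorem mean_sq (a : ℤ → ℝ) (A : Finset ℤ) : ∀ b : ℝ,
    ∑ S ∈ A.powerset, (b + ∑ k ∈ A, ((sgn S k : ℤ) : ℝ) * a k) ^ 2 = 2 ^ A.card * (b ^ 2 + ∑ k ∈ A, a k ^ 2) := by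
  classical
  induction A using Finset.induction_on with
  | empty => intro b; simp
  | insert j A hj ih =>
    intro b
    rw [Finset.sum_powerset_insert hj, Finset.card_insert_of_notMem hj, Finset.sum_insert hj]
    have e1 : ∀ S ∈ A.powerset, (b + ∑ k ∈ insert j A, ((sgn S k : ℤ) : ℝ) * a k) ^ 2 =
        ((b - a j) + ∑ k ∈ A, ((sgn S k : ℤ) : ℝ) * a k) ^ 2 := by
      intro S hS
      have hjS : j ∉ S := fun h => hj (Finset.mem_powerset.1 hS h)
      rw [Finset.sum_insert hj]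
      have : sgn S j = -1 := if_neg hjS
      rw [this]
      push_cast
      ring
    have e2 : ∀ S ∈ A.powerset, (b + ∑ k ∈ insert j A, ((sgn (insert j S) k : ℤ) : ℝ) * a k) ^ 2 =
        ((b + a j) + ∑ k ∈ A, ((sgn S k : ℤ) : ℝ) * a k) ^ 2 := by
      intro S hS
      rw [Finset.sum_insert hj]
      have : sgn (insert j S) j = 1 := if_pos (Finset.mem_insert_self j S)
      rw [this]
      have h2 : ∑ k ∈ A, ((sgn (insert j S) k : ℤ) : ℝ) * a k = ∑ k ∈ A, ((sgn S k : ℤ) : ℝ) * a k := by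
        refine Finset.sum_congr rfl fun k hk => ?_
        have hkj : k ≠ j := fun h => hj (h ▸ hk)
        have : sgn (insert j S) k = sgn S k := by
          unfold sgn
          simp [hkj]
        rw [this]
      rw [h2]
      push_cast
      ring
    rw [Finset.sum_congr rfl e1, Finset.sum_congr rfl e2, ih, ih]
    ring

theorem card_box (R : ℕ) : (Finset.Icc (-(R : ℤ)) R).card = 2 * R + 1 := by
  rw [Int.card_Icc]
  omega

/-- The mean over the coins. -/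
theorem pr_le {ι : Type} (A : Finset ι) (κ : ℝ) (a V : ι → ℤ → ℝ) (R : ℕ) (T : ℝ) (E : Set Cfg)
    (h : ∀ η, UC.P (ind E) T η ≤ κ * ∑ i ∈ A, (Lw (a i) η ^ 2 + Nw (V i) η)) :
    pr R T E ≤ κ * ∑ i ∈ A, ((∑ k ∈ Finset.Icc (-(R : ℤ)) R, a i k ^ 2) + ∑ k ∈ Finset.Icc (-(R : ℤ)) R, V i k) := by
  unfold pr
  have h2 : (0 : ℝ) < 2 ^ (2 * R + 1) := by positivity
  rw [div_le_iff₀ h2]
  refine (Finset.sum_le_sum fun S _ => h (ini R S)).trans (le_of_eq ?_)
  rw [← Finset.mul_sum, Finset.sum_comm, mul_assoc, Finset.sum_mul]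
  congr 1
  refine Finset.sum_congr rfl fun i _ => ?_
  rw [Finset.sum_add_distrib]
  have e1 := mean_sq (a i) (Finset.Icc (-(R : ℤ)) R) 0
  simp only [zero_add] at e1
  have e2 : ∑ S ∈ (Finset.Icc (-(R : ℤ)) R).powerset, Lw (a i) (ini R S) ^ 2 =
      2 ^ (2 * R + 1) * ∑ k ∈ Finset.Icc (-(R : ℤ)) R, a i k ^ 2 := by
    rw [← card_box R]
    refine Eq.trans (Finset.sum_congr rfl fun S _ => by rw [Lw_ini]) (e1.trans ?_)
    ring
  have e3 : ∑ S ∈ (Finset.Icc (-(R : ℤ)) R).powerset, Nw (V i) (ini R S) =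
      2 ^ (2 * R + 1) * ∑ k ∈ Finset.Icc (-(R : ℤ)) R, V i k := by
    rw [Finset.sum_congr rfl fun S _ => Nw_ini (V i) R S, Finset.sum_const, Finset.card_powerset, card_box,
      nsmul_eq_mul]
    push_cast
    ring
  rw [e2, e3]
  ring

theorem Lw_fs (c c' : ℤ →₀ ℝ) (η : Cfg) : Lw (⇑(c + c')) η = Lw (⇑c) η + Lw (⇑c') η := by
  unfold Lw Finsupp.sum
  rw [← Finset.sum_add_distrib]
  refine Finset.sum_congr rfl fun k _ => ?_
  show (η k : ℝ) * (c + c') k = (η k : ℝ) * c k + (η k : ℝ) * c' k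
  rw [Finsupp.add_apply]
  ring

theorem Lw_fsingle (j : ℤ) (y : ℝ) (η : Cfg) : Lw (⇑(Finsupp.single j y)) η = (η j : ℝ) * y := by
  unfold Lw Finsupp.sum
  simp only [Finsupp.single_apply, mul_ite, mul_zero]
  rw [Finset.sum_ite_eq]
  split_ifs with h
  · rfl
  · rw [Finsupp.notMem_support_iff.1 h]
    simp

/-- Comparison of `(x + y)²`. -/
theorem sum_two (F : Finset ℤ) (f : ℤ → ℝ) (M : ℝ) (h : ∀ F : Finset ℤ, ∑ k ∈ F, f k ^ 2 ≤ M) :
    ∑ k ∈ F, (f (k - 1) + f (k + 1)) ^ 2 ≤ 4 * M := by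
  classical
  have h1 : ∑ k ∈ F, f (k - 1) ^ 2 ≤ M := by
    have := h (F.map (Equiv.subRight (1 : ℤ)).toEmbedding)
    rw [Finset.sum_map] at this
    simpa using this
  have h2 : ∑ k ∈ F, f (k + 1) ^ 2 ≤ M := by
    have := h (F.map (Equiv.addRight (1 : ℤ)).toEmbedding)
    rw [Finset.sum_map] at this
    simpa using this
  calc ∑ k ∈ F, (f (k - 1) + f (k + 1)) ^ 2 ≤ ∑ k ∈ F, (2 * f (k - 1) ^ 2 + 2 * f (k + 1) ^ 2) :=
        Finset.sum_le_sum fun k _ => by nlinarith [sq_nonneg (f (k - 1) - f (k + 1))]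
    _ = 2 * ∑ k ∈ F, f (k - 1) ^ 2 + 2 * ∑ k ∈ F, f (k + 1) ^ 2 := by
        rw [Finset.sum_add_distrib, Finset.mul_sum, Finset.mul_sum]
    _ ≤ 4 * M := by linarith

end Pool.Agent.D0H65.UR
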